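import Pool.Agent.T6.H70.SA.Core
import Pool.Agent.T6.H70.SA.Gext

/-!
# A model of ZFC that satisfies the principle (A)

There is a countable model `N` of ZFC in which every `Σ₁` statement with parameters `ω₁`, `ω₂`
that can be forced by a notion of forcing that preserves `ω₁` and `ω₂` holds. Here the `Σ₁`
formulas are those of the metatheory, and `N` need not be well-founded.
-/

set_option autoImplicit false

namespace Pool.Agent.Results.MP_77fe52_lc.SigmaOneMaximal

open FirstOrder FirstOrder.Language
open Pool.Agent.Helper672.Plain (LSet)
open Pool.Agent.T6.H70.SA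

/-- The notion of forcing `(P, le)` of the model `N` preserves `a` and `b` as the first and the
second uncountable cardinal: they are these cardinals in every generic extension. -/
def Preserves {N : Type} [LSet.Structure N] (P le a b : N) : Prop :=
  ∀ (N' : Type) [LSet.Structure N'] [ZFC N'] (j : N → N') (G : N'),
    IsGenericExtension j P le G → IsOmega1 (j a) ∧ IsOmega2 (j b)

/-- The notion of forcing `(P, le)` of the model `N` forces `φ(a, b)`: the formula `φ` holds for
`a`, `b` in every generic extension. -/
def Forces {N : Type} [LSet.Structure N] (P le a b : N) (φ : LSet.Formula (Fin 2)) : Prop :=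
  ∀ (N' : Type) [LSet.Structure N'] [ZFC N'] (j : N → N') (G : N'),
    IsGenericExtension j P le G → φ.Realize ![j a, j b]

/-- There is a countable model `N` of ZFC such that, for its first and second uncountable
cardinals `a` and `b`: every notion of forcing of `N` has a generic extension that is a model of
ZFC; every `Σ₁` statement `φ(a, b)` that is forced by a notion of forcing that preserves `a` and
`b` as the first and the second uncountable cardinal holds in `N`; and more generally every `Σ₁`
statement `φ(a, b)` that holds in any model of ZFC that contains `N` as a transitive part and has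
`a` and `b` as its first and second uncountable cardinals holds in `N`. -/
theorem result : ∃ (N : Type) (_ : LSet.Structure N) (_ : Countable N) (_ : ZFC N) (a b : N),
    IsOmega1 a ∧ IsOmega2 b ∧
    (∀ P le : N, IsPoset P le → ∃ (N' : Type) (_ : LSet.Structure N') (_ : ZFC N') (j : N → N')
      (G : N'), IsGenericExtension j P le G) ∧
    (∀ φ : LSet.Formula (Fin 2), IsSigma1 φ → ∀ P le : N, IsPoset P le →
      Preserves P le a b → Forces P le a b φ → φ.Realize ![a, b]) ∧
    (∀ φ : LSet.Formula (Fin 2), IsSigma1 φ → ∀ (N' : Type) [LSet.Structure N'] [ZFC N']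
      (j : N → N'), IsTransEmb j → IsOmega1 (j a) → IsOmega2 (j b) →
        φ.Realize ![j a, j b] → φ.Realize ![a, b]) := by
  obtain ⟨N, _, hc, hN, a, b, ha, hb, h⟩ := exists_model
  refine ⟨N, _, hc, hN, a, b, ha, hb, fun P le hP => exists_gext N hP, ?_, ?_⟩
  · intro φ hφ P le hP h1 h2
    obtain ⟨N', _, hN', j, G, hG⟩ := exists_gext N hP
    obtain ⟨h3, h4⟩ := h1 N' j G hG
    exact h N' j hN' hG.emb h3 h4 φ hφ (h2 N' j G hG)
  · intro φ hφ N' _ hN' j hj h1 h2 h3
    exact h N' j hN' hj h1 h2 φ hφ h3

end Pool.Agent.Results.MP_77fe52_lc.SigmaOneMaximal
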